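import Pool.Agent.N352.PJ.Loc

/-!
# The number of roots near conjugate elements (part EQ of project PJ)
-/

set_option autoImplicit false
set_option linter.all false

open Polynomial

namespace Pool.Agent.N769.PJ

open Pool.Agent.N352.PJ (S_EQ near ac)

section val

variable {A : Type} [Field A] (w : Valuation A NNReal)

/-- `n` is the least index of a coefficient of the maximal value `c`. -/
structure NP (P : A[X]) (c : NNReal) (n : ℕ) : Prop where
  pos : 0 < c
  le : ∀ i, w (P.coeff i) ≤ c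
  eq : w (P.coeff n) = c
  lt : ∀ i < n, w (P.coeff i) < c

variable {w}

theorem NP.step1 {P : A[X]} {c : NNReal} {n : ℕ} (h : NP w P c n) {δ z : A} (hz : w z < w δ) :
    NP w ((C δ * X - C z) * P) (c * w δ) (n + 1) := by
  have hδ : 0 < w δ := lt_of_le_of_lt zero_le hz
  have e0 : ((C δ * X - C z) * P).coeff 0 = -(z * P.coeff 0) := by
    simp [sub_mul, mul_assoc]
  have e1 : ∀ i, ((C δ * X - C z) * P).coeff (i + 1) = δ * P.coeff i - z * P.coeff (i + 1) := by
    intro i
    simp [sub_mul, mul_assoc]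
  have hz' : ∀ i, w (z * P.coeff i) < c * w δ := by
    intro i
    rw [map_mul, mul_comm]
    exact lt_of_le_of_lt (mul_le_mul_left (h.le i) _) (mul_lt_mul_of_pos_left hz h.pos)
  have hd : ∀ i, w (δ * P.coeff i) ≤ c * w δ := by
    intro i
    rw [map_mul, mul_comm]
    exact mul_le_mul_left (h.le i) _
  refine ⟨mul_pos h.pos hδ, ?_, ?_, ?_⟩
  · rintro (_ | i)
    · rw [e0, Valuation.map_neg]
      exact (hz' 0).le
    · rw [e1]
      exact w.map_sub_le (hd i) (hz' _).le
  · have e : w (δ * P.coeff n) = c * w δ := by rw [map_mul, mul_comm, h.eq]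
    rw [e1, Valuation.map_sub_eq_of_lt_left, e]
    rw [e]
    exact hz' _
  · rintro (_ | i) hi
    · rw [e0, Valuation.map_neg]
      exact hz' 0
    · rw [e1]
      refine w.map_sub_lt ?_ (hz' _)
      rw [map_mul, mul_comm]
      exact mul_lt_mul_of_pos_right (h.lt i (by omega)) hδ

theorem NP.step2 {P : A[X]} {c : NNReal} {n : ℕ} (h : NP w P c n) {δ z : A} (hδ : 0 < w δ)
    (hz : w δ ≤ w z) : NP w ((C δ * X - C z) * P) (c * w z) n := by
  have hz0 : 0 < w z := lt_of_lt_of_le hδ hz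
  have e0 : ((C δ * X - C z) * P).coeff 0 = -(z * P.coeff 0) := by
    simp [sub_mul, mul_assoc]
  have e1 : ∀ i, ((C δ * X - C z) * P).coeff (i + 1) = δ * P.coeff i - z * P.coeff (i + 1) := by
    intro i
    simp [sub_mul, mul_assoc]
  have hz' : ∀ i, w (z * P.coeff i) ≤ c * w z := by
    intro i
    rw [map_mul, mul_comm]
    exact mul_le_mul_left (h.le i) _
  have hzl : ∀ i < n, w (z * P.coeff i) < c * w z := by
    intro i hi
    rw [map_mul, mul_comm]
    exact mul_lt_mul_of_pos_right (h.lt i hi) hz0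
  have hd : ∀ i, w (δ * P.coeff i) ≤ c * w z := by
    intro i
    rw [map_mul, mul_comm]
    exact mul_le_mul' (h.le i) hz
  have hdl : ∀ i < n, w (δ * P.coeff i) < c * w z := by
    intro i hi
    rw [map_mul, mul_comm]
    exact lt_of_le_of_lt (mul_le_mul_right hz _) (mul_lt_mul_of_pos_right (h.lt i hi) hz0)
  have e : w (z * P.coeff n) = c * w z := by rw [map_mul, mul_comm, h.eq]
  refine ⟨mul_pos h.pos hz0, ?_, ?_, ?_⟩
  · rintro (_ | i)
    · rw [e0, Valuation.map_neg]
      exact hz' 0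
    · rw [e1]
      exact w.map_sub_le (hd i) (hz' _)
  · rcases n with _ | n
    · rw [e0, Valuation.map_neg, e]
    · rw [e1, Valuation.map_sub_eq_of_lt_right, e]
      rw [e]
      exact hdl _ (by omega)
  · rintro (_ | i) hi
    · rw [e0, Valuation.map_neg]
      exact hzl 0 hi
    · rw [e1]
      exact w.map_sub_lt (hdl _ (by omega)) (hzl _ hi)

theorem np_const {a : A} (ha : a ≠ 0) : NP w (C a) (w a) 0 := by
  have h0 : 0 < w a := zero_lt_iff.2 ((Valuation.ne_zero_iff w).2 ha)
  refine ⟨h0, ?_, ?_, ?_⟩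
  · intro i
    rw [coeff_C]
    split_ifs
    · exact le_rfl
    · rw [map_zero]; exact h0.le
  · rw [coeff_C_zero]
  · intro i hi
    omega

theorem np_prod {a δ : A} (ha : a ≠ 0) (hδ : δ ≠ 0) (τ : A) (s : Multiset A)
    [DecidablePred fun x => w (x - δ * τ) < w δ] : ∃ c,
    NP w ((s.map fun x => C δ * (X + C τ) - C x).prod * C a) c
      (s.countP fun x => w (x - δ * τ) < w δ) := by
  have hδ0 : 0 < w δ := zero_lt_iff.2 ((Valuation.ne_zero_iff w).2 hδ)
  induction s using Multiset.induction_on with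
  | empty =>
    refine ⟨w a, ?_⟩
    simpa using np_const (w := w) ha
  | cons x s ih =>
    obtain ⟨c, hc⟩ := ih
    have e : (C δ * (X + C τ) - C x : A[X]) = C δ * X - C (x - δ * τ) := by
      rw [map_sub, map_mul]
      ring
    rw [Multiset.map_cons, Multiset.prod_cons, mul_assoc, e]
    by_cases hx : w (x - δ * τ) < w δ
    · rw [Multiset.countP_cons_of_pos (p := fun x => w (x - δ * τ) < w δ) s hx]
      exact ⟨_, hc.step1 hx⟩
    · rw [Multiset.countP_cons_of_neg (p := fun x => w (x - δ * τ) < w δ) s hx]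
      exact ⟨_, hc.step2 hδ0 (not_lt.1 hx)⟩

theorem nat_le (n : ℕ) : w (n : A) ≤ 1 := natCast_mem w.integer n

theorem tay_le (p : A[X]) {s : A} (hs : w s ≤ 1) {b : NNReal} (hb : ∀ i, w (p.coeff i) ≤ b)
    (m : ℕ) : w ((taylor s p).coeff m) ≤ b := by
  rw [taylor_coeff, eval_eq_sum_range]
  refine w.map_sum_le fun i _ => ?_
  rw [hasseDeriv_coeff, map_mul, map_mul, map_pow]
  calc w ((i + m).choose m : A) * w (p.coeff (i + m)) * w s ^ i
      ≤ 1 * b * 1 ^ i := mul_le_mul' (mul_le_mul' (nat_le _) (hb _)) (pow_le_pow_left₀ zero_le hs _)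
    _ = b := by rw [one_mul, one_pow, mul_one]

theorem NP.smul {P : A[X]} {c : NNReal} {n : ℕ} (h : NP w P c n) {a : A} (ha : a ≠ 0) :
    NP w (C a * P) (w a * c) n := by
  have h0 : 0 < w a := zero_lt_iff.2 ((Valuation.ne_zero_iff w).2 ha)
  refine ⟨mul_pos h0 h.pos, ?_, ?_, ?_⟩
  · intro i
    rw [coeff_C_mul, map_mul]
    exact mul_le_mul_right (h.le i) _
  · rw [coeff_C_mul, map_mul, h.eq]
  · intro i hi
    rw [coeff_C_mul, map_mul]
    exact mul_lt_mul_of_pos_left (h.lt i hi) h0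

end val

theorem hder_map {R S : Type} [CommRing R] [CommRing S] (φ : R →+* S) (m : ℕ) (p : R[X]) :
    (hasseDeriv m p).map φ = hasseDeriv m (p.map φ) := by
  ext i
  simp [hasseDeriv_coeff]

theorem key {E₀ E : Type} [Field E₀] [Field E] (ι : E₀ →+* E)
    (w : Valuation (AlgebraicClosure E) NNReal) {D : E₀} {u : E₀[X]} (hD : D ≠ 0) (hu : u ≠ 0) :
    ∃ U : E₀[X], (∀ i, w (ac (ι (U.coeff i))) ≤ 1) ∧ ∀ t : E, w (ac t) ≤ 1 →
      NP w (taylor (ac t) ((U.map ι).map (algebraMap E (AlgebraicClosure E)))) 1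
        (near w (ι D) (u.map ι) t) := by
  set V : E₀[X] := u.comp (C D * X) with hV
  have hV0 : ∃ i, V.coeff i ≠ 0 := by
    obtain ⟨i, hi⟩ : ∃ i, u.coeff i ≠ 0 := by
      by_contra hcon
      push Not at hcon
      exact hu (Polynomial.ext hcon)
    refine ⟨i, ?_⟩
    rw [hV, comp_C_mul_X_coeff]
    exact mul_ne_zero hi (pow_ne_zero _ hD)
  obtain ⟨i₁, hi₁⟩ := hV0
  obtain ⟨i₀, hi₀, hmax⟩ := V.support.exists_max_image (fun i => w (ac (ι (V.coeff i))))
    ⟨i₁, mem_support_iff.2 hi₁⟩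
  set c₀ := V.coeff i₀ with hc₀
  have hc0 : c₀ ≠ 0 := mem_support_iff.1 hi₀
  have hinj : ∀ x : E₀, x ≠ 0 → ac (ι x) ≠ 0 := by
    intro x hx
    rw [ac, Ne, map_eq_zero, map_eq_zero]
    exact hx
  have hwc : w (ac (ι c₀)) ≠ 0 := (Valuation.ne_zero_iff w).2 (hinj _ hc0)
  have hle : ∀ i, w (ac (ι (V.coeff i))) ≤ w (ac (ι c₀)) := by
    intro i
    by_cases hi : V.coeff i = 0
    · rw [hi, ac, map_zero, map_zero, map_zero]
      exact zero_le
    · exact hmax i (mem_support_iff.2 hi)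
  set U : E₀[X] := C c₀⁻¹ * V with hU
  have hUle : ∀ i, w (ac (ι (U.coeff i))) ≤ 1 := by
    intro i
    have e : w (ac (ι (U.coeff i))) = (w (ac (ι c₀)))⁻¹ * w (ac (ι (V.coeff i))) := by
      rw [hU, coeff_C_mul, ac, map_mul, map_mul, map_mul, map_inv₀, map_inv₀, map_inv₀]
    rw [e]
    calc (w (ac (ι c₀)))⁻¹ * w (ac (ι (V.coeff i)))
        ≤ (w (ac (ι c₀)))⁻¹ * w (ac (ι c₀)) := mul_le_mul_right (hle i) _
      _ = 1 := inv_mul_cancel₀ hwc
  have hU1 : U.coeff i₀ = 1 := by
    rw [hU, coeff_C_mul, ← hc₀, inv_mul_cancel₀ hc0]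
  refine ⟨U, hUle, ?_⟩
  intro t ht
  set AC := AlgebraicClosure E
  set P : AC[X] := (u.map ι).map (algebraMap E AC) with hP
  have hP0 : P ≠ 0 := by
    rw [hP, Polynomial.map_ne_zero_iff (algebraMap E AC).injective,
      Polynomial.map_ne_zero_iff ι.injective]
    exact hu
  have hsp : P.Splits := IsAlgClosed.splits _
  set δ : AC := ac (ι D) with hδ
  have hδ0 : δ ≠ 0 := hinj _ hD
  set τ : AC := ac t with hτ
  -- the polynomial as a product
  have hprod : P.comp (C δ * (X + C τ)) =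
      (P.roots.map fun x => C δ * (X + C τ) - C x).prod * C P.leadingCoeff := by
    conv_lhs => rw [hsp.eq_prod_roots]
    rw [mul_comp, C_comp, multiset_prod_comp, Multiset.map_map, mul_comm]
    congr 2
    refine Multiset.map_congr rfl fun x _ => ?_
    rw [Function.comp_apply, sub_comp, X_comp, C_comp]
  have htay : taylor τ ((V.map ι).map (algebraMap E AC)) = P.comp (C δ * (X + C τ)) := by
    rw [taylor_apply, hV, map_comp, map_comp, comp_assoc]
    congr 1
    simp only [Polynomial.map_mul, map_C, map_X, mul_comp, C_comp, X_comp]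
    rfl
  obtain ⟨c, hc⟩ := np_prod (w := w) (leadingCoeff_ne_zero.2 hP0) hδ0 τ P.roots
  rw [← hprod, ← htay] at hc
  have hn : (P.roots.countP fun x => w (x - δ * τ) < w δ) = near w (ι D) (u.map ι) t := by
    unfold near
    have e : ac (ι D * t) = δ * τ := by
      rw [ac, map_mul]
    rw [e]
  rw [hn] at hc
  have hc' := hc.smul (inv_ne_zero (hinj _ hc0))
  have hUV : taylor τ ((U.map ι).map (algebraMap E AC)) =
      C (ac (ι c₀))⁻¹ * taylor τ ((V.map ι).map (algebraMap E AC)) := by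
    rw [hU, Polynomial.map_mul, Polynomial.map_mul, map_C, map_C, taylor_mul, taylor_C]
    congr 2
    rw [ac, map_inv₀, map_inv₀]
  rw [← hUV] at hc'
  set b := w (ac (ι c₀))⁻¹ * c with hb
  have hb1 : b ≤ 1 := by
    rw [← hc'.eq]
    refine tay_le _ ht (fun i => ?_) _
    rw [coeff_map, coeff_map]
    exact hUle i
  have hb2 : 1 ≤ b := by
    have h1 : w ((taylor (-τ) (taylor τ ((U.map ι).map (algebraMap E AC)))).coeff i₀) ≤ b :=
      tay_le _ (by rw [Valuation.map_neg]; exact ht) hc'.le _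
    rw [taylor_taylor, neg_add_cancel, taylor_zero, coeff_map, coeff_map, hU1, map_one, map_one,
      map_one] at h1
    exact h1
  rw [le_antisymm hb1 hb2] at hc'
  exact hc'

/-- **EQ**: the number of roots near conjugate elements. -/
theorem eq : S_EQ := by
  intro E₀ E _ _ ι w D t t' u hD hu ht ht' H
  obtain ⟨U, hU, hn⟩ := key ι w hD hu
  have h1 := hn t ht
  have h2 := hn t' ht'
  have hiff : ∀ m, w ((taylor (ac t) ((U.map ι).map (algebraMap E (AlgebraicClosure E)))).coeff m)
      < 1 ↔ w ((taylor (ac t') ((U.map ι).map (algebraMap E (AlgebraicClosure E)))).coeff m) < 1 := by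
    intro m
    have e : ∀ s : E, (taylor (ac s) ((U.map ι).map (algebraMap E (AlgebraicClosure E)))).coeff m =
        ac (((hasseDeriv m U).map ι).eval s) := by
      intro s
      rw [taylor_coeff, ← hder_map, ← hder_map, ac, ac, eval_map, eval₂_at_apply]
    rw [e, e]
    refine H _ fun i => ?_
    rw [hasseDeriv_coeff, ac, map_mul, map_mul, map_natCast, map_natCast, map_mul]
    calc w (((i + m).choose m : ℕ) : AlgebraicClosure E) * w (ac (ι (U.coeff (i + m))))
        ≤ 1 * 1 := mul_le_mul' (nat_le _) (hU _)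
      _ = 1 := one_mul 1
  rcases lt_trichotomy (near w (ι D) (u.map ι) t) (near w (ι D) (u.map ι) t') with h | h | h
  · exact absurd h1.eq ((hiff _).2 (h2.lt _ h)).ne
  · exact h
  · exact absurd h2.eq ((hiff _).1 (h1.lt _ h)).ne

end Pool.Agent.N769.PJ
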