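import Pool.Agent.N352.PJ.Lat

/-!
# The ring of integers is `k[X][θ]` when the discriminant is squarefree (part INT of project PJ)
-/

set_option autoImplicit false
set_option linter.all false

open Polynomial IsDedekindDomain Matrix
open scoped Classical

namespace Pool.Agent.N769.PJ

open Pool.Agent.N352.PJ

/-- A coefficient whose square times a squarefree element is integral is a polynomial. -/
theorem sqf_int {k K : Type} [Field k] [Field K] [Algebra k[X] K] [IsFractionRing k[X] K]
    {D : k[X]} (hD : Squarefree D) {t : K}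
    (h : IsIntegral k[X] (t ^ 2 * algebraMap k[X] K D)) : ∃ c : k[X], algebraMap k[X] K c = t := by
  have hD0 : D ≠ 0 := hD.ne_zero
  have hD0' : algebraMap k[X] K D ≠ 0 := by
    rwa [Ne, IsFractionRing.to_map_eq_zero_iff (R := k[X])]
  have h1 : IsIntegral k[X] (t * algebraMap k[X] K D) := by
    refine IsIntegral.of_pow (n := 2) (by norm_num) ?_
    have : (t * algebraMap k[X] K D) ^ 2 = t ^ 2 * algebraMap k[X] K D * algebraMap k[X] K D := by
      ring
    rw [this]
    exact h.mul isIntegral_algebraMap
  obtain ⟨m, hm⟩ := IsIntegrallyClosed.isIntegral_iff.1 h1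
  obtain ⟨n, hn⟩ := IsIntegrallyClosed.isIntegral_iff.1 h
  have h2 : m ^ 2 = n * D := by
    apply IsFractionRing.injective k[X] K
    rw [map_pow, map_mul, hm, hn]
    ring
  have h3 : D ∣ m := (hD.dvd_pow_iff_dvd (n := 2) (by norm_num)).1 ⟨n, by rw [h2]; ring⟩
  obtain ⟨c, rfl⟩ := h3
  refine ⟨c, ?_⟩
  rw [map_mul, mul_comm] at hm
  exact mul_right_cancel₀ hD0' hm

section gen

variable {g : ℕ} {k K L : Type} [Field k] [Field K] [Algebra k[X] K] [IsFractionRing k[X] K]
  [Field L] [Algebra K L] [Algebra k[X] L] [IsScalarTower k[X] K L] {f : k[X][X]} {θ : L}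

/-- The power basis. -/
noncomputable def pb (h : IsGen g K f θ) : PowerBasis K L where
  gen := θ
  dim := 2 * g + 1
  basis := h.basis
  basis_eq_pow := h.basis_apply

theorem minp (h : IsGen g K f θ) : minpoly K θ = f.map (algebraMap k[X] K) := by
  have h1 : aeval θ (f.map (algebraMap k[X] K)) = 0 := by
    rw [aeval_map_algebraMap, aeval_def, h.root]
  have h2 := minpoly.dvd K θ h1
  have h3 : (minpoly K θ).natDegree = 2 * g + 1 := (pb h).natDegree_minpoly
  have hi : IsIntegral K θ := (pb h).isIntegral_gen
  have h4 : (f.map (algebraMap k[X] K)).natDegree = 2 * g + 1 := by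
    rw [h.mon.natDegree_map, h.deg]
  exact (Polynomial.eq_of_monic_of_dvd_of_natDegree_le (minpoly.monic hi) (h.mon.map _) h2
    (by rw [h3, h4])).symm

theorem dsc_map (h : IsGen g K f θ) : algebraMap k[X] K (dsc g f) =
    (f.map (algebraMap k[X] K)).resultant (derivative (f.map (algebraMap k[X] K)))
      (2 * g + 1) (2 * g) := by
  rw [derivative_map, resultant_map_map, dsc]

theorem deg_der (h : IsGen g K f θ) :
    (derivative (f.map (algebraMap k[X] K))).natDegree ≤ 2 * g := by
  refine (natDegree_derivative_le _).trans ?_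
  rw [h.mon.natDegree_map, h.deg]
  omega

theorem sep (h : IsGen g K f θ) (hd : dsc g f ≠ 0) : (f.map (algebraMap k[X] K)).Separable := by
  set F := f.map (algebraMap k[X] K) with hF
  have hdeg : F.natDegree = 2 * g + 1 := by
    rw [hF, h.mon.natDegree_map, h.deg]
  have h1 : F.resultant (derivative F) (2 * g + 1) (2 * g) ≠ 0 := by
    rw [hF, ← dsc_map h]
    rwa [Ne, IsFractionRing.to_map_eq_zero_iff (R := k[X])]
  have h2 : F.resultant (derivative F) ≠ 0 := by
    intro h0
    apply h1
    obtain ⟨j, hj⟩ := Nat.exists_eq_add_of_le (deg_der h)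
    rw [← hF] at hj
    have h5 := resultant_add_right_deg F (derivative F) (2 * g + 1) (derivative F).natDegree j
      le_rfl
    rw [← hj, ← hdeg, h0, mul_zero] at h5
    rw [← hdeg, h5]
  have h3 := mt resultant_eq_zero_iff.2 h2
  rw [not_and, not_not] at h3
  have hF0 : F ≠ 0 := (h.mon.map _).ne_zero
  exact h3 (Or.inl hF0)

theorem isSep (h : IsGen g K f θ) (hd : dsc g f ≠ 0) : Algebra.IsSeparable K L := by
  have h1 : IsSeparable K θ := by
    rw [IsSeparable, minp h]
    exact sep h hd
  have h2 := (IntermediateField.isSeparable_adjoin_simple_iff_isSeparable K L).2 h1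
  have h3 : IntermediateField.adjoin K {θ} = ⊤ := by
    rw [eq_top_iff]
    intro x _
    obtain ⟨c, rfl⟩ := h.gen x
    refine sum_mem fun i _ => mul_mem ?_ (pow_mem (IntermediateField.mem_adjoin_simple_self K θ) _)
    exact IntermediateField.algebraMap_mem _ _
  rw [h3] at h2
  exact (AlgEquiv.Algebra.isSeparable_iff (IntermediateField.topEquiv (F := K) (E := L))).1 h2

theorem nrm (h : IsGen g K f θ) (hd : dsc g f ≠ 0) (p : K[X]) (n : ℕ) (hp : p.natDegree ≤ n) :
    Algebra.norm K (aeval θ p) = (f.map (algebraMap k[X] K)).resultant p (2 * g + 1) n := by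
  have := isSep h hd
  have : FiniteDimensional K L := Module.Finite.of_basis h.basis
  set F := f.map (algebraMap k[X] K) with hF
  have hdeg : F.natDegree = 2 * g + 1 := by
    rw [hF, h.mon.natDegree_map, h.deg]
  set E := AlgebraicClosure L
  apply (algebraMap K E).injective
  rw [Algebra.norm_eq_prod_embeddings]
  have hsp : (F.map (algebraMap K E)).Splits := IsAlgClosed.splits _
  have hm : (F.map (algebraMap K E)).Monic := (h.mon.map _).map _
  have hdeg' : (F.map (algebraMap K E)).natDegree = 2 * g + 1 := by
    rw [Monic.natDegree_map (h.mon.map _), hdeg]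
  rw [← resultant_map_map, ← hdeg', resultant_eq_prod_eval _ _ _ (natDegree_map_le.trans hp) hsp,
    hm.leadingCoeff, one_pow, one_mul]
  have hmp : minpoly K (pb h).gen = F := minp h
  have hnd : ((minpoly K (pb h).gen).aroots E).Nodup := by
    rw [hmp]
    exact nodup_roots (sep h hd).map
  have key : ∏ σ : L →ₐ[K] E, σ (aeval θ p) =
      ∏ x : {y : E // y ∈ (minpoly K (pb h).gen).aroots E}, (p.map (algebraMap K E)).eval (x : E) :=
    Fintype.prod_equiv (pb h).liftEquiv' _ _ fun σ => by
      rw [PowerBasis.liftEquiv'_apply_coe, ← aeval_algHom_apply, eval_map_algebraMap]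
      rfl
  rw [key, Finset.prod_mem_multiset _ _ (fun x => (p.map (algebraMap K E)).eval x)
    (fun _ => rfl), Finset.prod_eq_multiset_prod, Multiset.toFinset_val,
    Multiset.dedup_eq_self.mpr hnd, hmp]

theorem dis (h : IsGen g K f θ) (hd : dsc g f ≠ 0) : ∃ m : ℕ,
    Algebra.discr K (fun i : Fin (2 * g + 1) => θ ^ (i : ℕ)) =
      (-1) ^ m * algebraMap k[X] K (dsc g f) := by
  have := isSep h hd
  have : FiniteDimensional K L := Module.Finite.of_basis h.basis
  have h1 := Algebra.discr_powerBasis_eq_norm K (pb h)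
  have h2 : (⇑(pb h).basis : Fin (2 * g + 1) → L) = fun i : Fin (2 * g + 1) => θ ^ (i : ℕ) :=
    funext fun i => h.basis_apply i
  have h3 : minpoly K (pb h).gen = f.map (algebraMap k[X] K) := minp h
  rw [h3] at h1
  have h4 := nrm h hd _ _ (deg_der h)
  refine ⟨Module.finrank K L * (Module.finrank K L - 1) / 2, ?_⟩
  rw [dsc_map h, ← h4, ← h2]
  exact h1

theorem theta_int (h : IsGen g K f θ) : IsIntegral k[X] θ := ⟨f, h.mon, h.root⟩

end gen

/-- **INT**: the ring of integers is `k[X][θ]`. -/
theorem int : S_INT := by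
  intro g k K L _ _ _ _ _ _ _ _ f θ h hsq x
  have hθ := theta_int h
  have : FiniteDimensional K L := Module.Finite.of_basis h.basis
  constructor
  · intro hx
    obtain ⟨c, hc⟩ := h.gen x
    have key : ∀ i₀, ∃ d : k[X], algebraMap k[X] K d = c i₀ := by
      intro i₀
      obtain ⟨m, hm⟩ := dis h hsq.ne_zero
      set P : Matrix (Fin (2 * g + 1)) (Fin (2 * g + 1)) K := (1 : Matrix _ _ K).updateCol i₀ c
        with hP
      have hdet : P.det = c i₀ := by
        rw [hP, ← cramer_apply, cramer_one]
        rfl
      have h1 : IsIntegral k[X] (Algebra.discr K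
          ((fun i : Fin (2 * g + 1) => θ ^ (i : ℕ)) ᵥ* P.map (algebraMap K L))) := by
        apply Algebra.discr_isIntegral
        intro j
        have e : ((fun i : Fin (2 * g + 1) => θ ^ (i : ℕ)) ᵥ* P.map (algebraMap K L)) j =
            if j = i₀ then x else θ ^ (j : ℕ) := by
          rw [Matrix.vecMul, dotProduct]
          simp only [Matrix.map_apply]
          split_ifs with hj
          · subst hj
            rw [hc]
            refine Finset.sum_congr rfl fun i _ => ?_
            rw [hP, updateCol_self, mul_comm]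
          · rw [Finset.sum_eq_single j]
            · rw [hP, updateCol_ne hj, one_apply_eq, map_one, mul_one]
            · intro i _ hij
              rw [hP, updateCol_ne hj, one_apply_ne hij, map_zero, mul_zero]
            · intro h0
              exact absurd (Finset.mem_univ _) h0
        rw [e]
        split_ifs
        · exact hx
        · exact hθ.pow _
      rw [Algebra.discr_of_matrix_vecMul, hdet, hm] at h1
      apply sqf_int hsq
      have h2 : IsIntegral k[X] ((-1 : K) ^ m) := (isIntegral_one.neg).pow m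
      have h3 := h2.mul h1
      have e2 : (-1 : K) ^ m * (-1 : K) ^ m = 1 := by
        rw [← mul_pow, neg_one_mul, neg_neg, one_pow]
      have e : (-1 : K) ^ m * (c i₀ ^ 2 * ((-1) ^ m * algebraMap k[X] K (dsc g f))) =
          c i₀ ^ 2 * algebraMap k[X] K (dsc g f) := by
        linear_combination (c i₀ ^ 2 * algebraMap k[X] K (dsc g f)) * e2
      rwa [e] at h3
    choose v hv using key
    refine ⟨v, ?_⟩
    rw [Crd, hc]
    refine Finset.sum_congr rfl fun i _ => ?_
    rw [IsScalarTower.algebraMap_apply k[X] K L, hv]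
  · rintro ⟨v, hv⟩
    rw [hv]
    exact IsIntegral.sum _ fun i _ => isIntegral_algebraMap.mul (hθ.pow _)

end Pool.Agent.N769.PJ
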